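import Mathlib

/-!
# The Puiseux theorem over an algebraically closed field of characteristic zero

This is the proof of `Pool.Agent.Helper10.TC.puiseux` with `ℂ` replaced by `K`.
-/

set_option autoImplicit false
set_option linter.unusedSectionVars false

open Polynomial

namespace Pool.Agent.Helper97.PLN.Pui

variable {K : Type*} [Field K] [IsAlgClosed K] [CharZero K]

/-- `X ↦ X ^ N` -/
noncomputable def xp (N : ℕ) (hN : N ≠ 0) : (PowerSeries K) →+* (PowerSeries K) := (PowerSeries.expand N hN).toRingHom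


theorem hensel_split (F : Polynomial (PowerSeries K)) (hF : F.Monic) (a b : K) (hab : a ≠ b)
    (ha : (F.map PowerSeries.constantCoeff).eval a = 0)
    (hb : (F.map PowerSeries.constantCoeff).eval b = 0) :
    ∃ P Q : Polynomial (PowerSeries K), P.Monic ∧ Q.Monic ∧ F = P * Q ∧ 0 < P.natDegree ∧ 0 < Q.natDegree := by
  classical
  have hac : IsAdicComplete (IsLocalRing.maximalIdeal (PowerSeries K)) (PowerSeries K) := by
    rw [PowerSeries.maximalIdeal_eq_span_X]
    infer_instance
  have hmem : ∀ r : (PowerSeries K), r ∈ IsLocalRing.maximalIdeal (PowerSeries K) → PowerSeries.constantCoeff r = 0 := by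
    intro r hr
    rw [PowerSeries.maximalIdeal_eq_span_X, Ideal.mem_span_singleton, PowerSeries.X_dvd_iff] at hr
    exact hr
  have hne : IsLocalRing.maximalIdeal (PowerSeries K) ≠ ⊤ := Ideal.IsPrime.ne_top inferInstance
  set f : Polynomial (PowerSeries K) := F.comp (X + C (PowerSeries.C a)) with hf
  have hfm : f.Monic := hF.comp_X_add_C _
  have hfbar : f.map PowerSeries.constantCoeff =
      (F.map PowerSeries.constantCoeff).comp (X + C a) := by
    rw [hf, Polynomial.map_comp]
    simp
  have hg : (f : PowerSeries (PowerSeries K)).map (IsLocalRing.residue (PowerSeries K)) ≠ 0 := by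
    intro h0
    have h1 := congrArg (PowerSeries.coeff f.natDegree) h0
    rw [PowerSeries.coeff_map, Polynomial.coeff_coe, map_zero] at h1
    have h2 : f.coeff f.natDegree = 1 := hfm
    rw [h2, map_one] at h1
    exact one_ne_zero h1
  obtain ⟨P, h, H⟩ := PowerSeries.exists_isWeierstrassFactorization hg
  have hPd := H.isDistinguishedAt
  have hPm : P.Monic := hPd.monic
  have hdiv := hPd.isWeierstrassDivisorAt hne
  have hord : P.natDegree = ((P : PowerSeries (PowerSeries K)).map
      (Ideal.Quotient.mk (IsLocalRing.maximalIdeal (PowerSeries K)))).order.toNat := by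
    have h1 := hPd.coe_natDegree_eq_order_map (P : PowerSeries (PowerSeries K)) 1
      (by rwa [PowerSeries.constantCoeff_one, ← Ideal.ne_top_iff_one]) (by simp)
    rw [← h1]
    simp
  have hfPQ : f = P * (f /ₘ P) := by
    have h1 := modByMonic_add_div f P
    have hdeg : (f %ₘ P).degree < ((P : PowerSeries (PowerSeries K)).map
        (Ideal.Quotient.mk (IsLocalRing.maximalIdeal (PowerSeries K)))).order.toNat := by
      rw [← hord, ← degree_eq_natDegree hPm.ne_zero]
      exact degree_modByMonic_lt f hPm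
    have h2 : (P : PowerSeries (PowerSeries K)) * ((f /ₘ P : Polynomial (PowerSeries K)) : PowerSeries (PowerSeries K)) +
        ((f %ₘ P : Polynomial (PowerSeries K)) : PowerSeries (PowerSeries K)) =
        (P : PowerSeries (PowerSeries K)) * h + ((0 : Polynomial (PowerSeries K)) : PowerSeries (PowerSeries K)) := by
      rw [Polynomial.coe_zero, add_zero, ← H.eq_mul, ← Polynomial.coe_mul, ← Polynomial.coe_add,
        add_comm, h1]
    have h3 := hdiv.eq_of_mul_add_eq_mul_add hdeg (by
      rw [degree_zero]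
      exact WithBot.bot_lt_coe _) h2
    conv_lhs => rw [← h1, h3.2, zero_add]
  set Q := f /ₘ P with hQ
  have hQm : Q.Monic := hPm.of_mul_monic_left (by rw [← hfPQ]; exact hfm)
  -- the reduction of `P` is a power of `X`
  have hPbar : P.map PowerSeries.constantCoeff = X ^ P.natDegree := by
    ext i
    rw [coeff_map, coeff_X_pow]
    rcases lt_trichotomy i P.natDegree with hi | hi | hi
    · rw [if_neg hi.ne]
      exact hmem _ (hPd.mem hi)
    · rw [if_pos hi, hi]
      have h2 : P.coeff P.natDegree = 1 := hPm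
      rw [h2, map_one]
    · rw [if_neg hi.ne', coeff_eq_zero_of_natDegree_lt hi, map_zero]
  have hP0 : 0 < P.natDegree := by
    rw [Nat.pos_iff_ne_zero]
    intro h0
    have h1 : P = 1 := by
      exact hPm.natDegree_eq_zero.mp h0
    have h2 := H.eq_mul
    rw [h1, Polynomial.coe_one, one_mul] at h2
    have h3 := H.isUnit
    rw [← h2, PowerSeries.isUnit_iff_constantCoeff, ← PowerSeries.coeff_zero_eq_constantCoeff,
      Polynomial.coeff_coe] at h3
    have h4 : PowerSeries.constantCoeff (f.coeff 0) = 0 := by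
      have h5 : (f.map PowerSeries.constantCoeff).eval 0 = 0 := by
        rw [hfbar, eval_comp]
        simpa using ha
      rw [← coeff_zero_eq_eval_zero, coeff_map] at h5
      exact h5
    have h6 := h3.map (PowerSeries.constantCoeff (R := K))
    rw [h4] at h6
    exact not_isUnit_zero h6
  have hQ0 : 0 < Q.natDegree := by
    rw [Nat.pos_iff_ne_zero]
    intro h0
    have h1 : Q = 1 := by
      exact hQm.natDegree_eq_zero.mp h0
    rw [h1, mul_one] at hfPQ
    have h2 : (f.map PowerSeries.constantCoeff).eval (b - a) = 0 := by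
      rw [hfbar, eval_comp]
      simpa using hb
    rw [hfPQ, hPbar, eval_pow, eval_X] at h2
    exact pow_ne_zero _ (sub_ne_zero.mpr (Ne.symm hab)) h2
  refine ⟨P.comp (X - C (PowerSeries.C a)), Q.comp (X - C (PowerSeries.C a)),
    hPm.comp_X_sub_C _, hQm.comp_X_sub_C _, ?_, ?_, ?_⟩
  · rw [← mul_comp, ← hfPQ, hf, comp_assoc]
    simp
  · rw [natDegree_comp, natDegree_X_sub_C, mul_one]
    exact hP0
  · rw [natDegree_comp, natDegree_X_sub_C, mul_one]
    exact hQ0



theorem scale_step (F : Polynomial (PowerSeries K)) (hF : F.Monic) (n : ℕ) (hn : F.natDegree = n) (h2 : 2 ≤ n)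
    (h1 : F.coeff (n - 1) = 0) (h0 : F ≠ X ^ n) :
    ∃ (N : ℕ) (hN : N ≠ 0) (k : ℕ) (G : Polynomial (PowerSeries K)), G.Monic ∧ G.natDegree = n ∧
      G.coeff (n - 1) = 0 ∧ G.map PowerSeries.constantCoeff ≠ X ^ n ∧
      (F.map (xp N hN)).comp (C (PowerSeries.X ^ k) * X) = C (PowerSeries.X ^ (k * n)) * G := by
  classical
  set N : ℕ := n.factorial with hNdef
  have hN : N ≠ 0 := Nat.factorial_ne_zero n
  have hNd : ∀ i, i < n → (n - i) * (N / (n - i)) = N := fun i hi =>
    Nat.mul_div_cancel' (Nat.dvd_factorial (by omega) (by omega))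
  -- the indices of the nonzero coefficients
  set S : Finset ℕ := (Finset.range n).filter (fun i => F.coeff i ≠ 0) with hS
  have hFn : F.coeff n = 1 := by
    rw [← hn]
    exact hF.coeff_natDegree
  have hFgt : ∀ i, n < i → F.coeff i = 0 := fun i hi => by
    apply coeff_eq_zero_of_natDegree_lt
    rw [hn]
    exact hi
  have hSne : S.Nonempty := by
    rw [Finset.nonempty_iff_ne_empty]
    intro he
    apply h0
    ext1 i
    rw [coeff_X_pow]
    rcases lt_trichotomy i n with hi | hi | hi
    · rw [if_neg hi.ne]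
      by_contra h3
      have h4 : i ∈ S := Finset.mem_filter.2 ⟨Finset.mem_range.2 hi, h3⟩
      rw [he] at h4
      exact Finset.notMem_empty _ h4
    · rw [if_pos hi, hi, hFn]
    · rw [if_neg hi.ne', hFgt i hi]
  obtain ⟨i₀, hi₀, hmin⟩ := S.exists_min_image
    (fun i => N / (n - i) * (F.coeff i).order.toNat) hSne
  obtain ⟨hi₀n, hi₀0⟩ := Finset.mem_filter.1 hi₀
  rw [Finset.mem_range] at hi₀n
  set k : ℕ := N / (n - i₀) * (F.coeff i₀).order.toNat with hk
  have hxpX : xp N hN (PowerSeries.X : (PowerSeries K)) = PowerSeries.X ^ N := PowerSeries.expand_X N hN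
  have hdvd : ∀ i, i ≤ n → (PowerSeries.X : (PowerSeries K)) ^ (k * (n - i)) ∣ xp N hN (F.coeff i) := by
    intro i hi
    rcases hi.lt_or_eq with hi | hi
    · by_cases h3 : F.coeff i = 0
      · rw [h3, map_zero]
        exact dvd_zero _
      · have h4 : k ≤ N / (n - i) * (F.coeff i).order.toNat :=
          hmin i (Finset.mem_filter.2 ⟨Finset.mem_range.2 hi, h3⟩)
        have h5 : k * (n - i) ≤ N * (F.coeff i).order.toNat := by
          calc k * (n - i) ≤ N / (n - i) * (F.coeff i).order.toNat * (n - i) :=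
                Nat.mul_le_mul_right _ h4
            _ = (n - i) * (N / (n - i)) * (F.coeff i).order.toNat := by ring
            _ = _ := by rw [hNd i hi]
        have h6 : (PowerSeries.X : (PowerSeries K)) ^ (N * (F.coeff i).order.toNat) ∣
            xp N hN (F.coeff i) := by
          have h7 := map_dvd (xp N hN) (PowerSeries.X_pow_order_dvd (φ := F.coeff i))
          rwa [map_pow, hxpX, ← pow_mul] at h7
        exact (pow_dvd_pow _ h5).trans h6
    · rw [hi, Nat.sub_self, mul_zero, pow_zero]
      exact one_dvd _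
  have hex : ∀ i, ∃ g : (PowerSeries K), i ≤ n → xp N hN (F.coeff i) = PowerSeries.X ^ (k * (n - i)) * g := by
    intro i
    by_cases hi : i ≤ n
    · obtain ⟨g, hg⟩ := hdvd i hi
      exact ⟨g, fun _ => hg⟩
    · exact ⟨0, fun h => absurd h hi⟩
  choose g hg using hex
  have hgn : g n = 1 := by
    have h3 := hg n le_rfl
    rw [hFn, map_one, Nat.sub_self, mul_zero, pow_zero, one_mul] at h3
    exact h3.symm
  have hgn1 : g (n - 1) = 0 := by
    have h3 := hg (n - 1) (Nat.sub_le _ _)
    rw [h1, map_zero] at h3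
    exact (mul_eq_zero.1 h3.symm).resolve_left (pow_ne_zero _ PowerSeries.X_ne_zero)
  set G : Polynomial (PowerSeries K) := ∑ i ∈ Finset.range (n + 1), C (g i) * X ^ i with hG
  have hGc : ∀ i, G.coeff i = if i ≤ n then g i else 0 := by
    intro i
    rw [hG, finsetSum_coeff]
    simp only [coeff_C_mul_X_pow]
    rw [Finset.sum_ite_eq]
    simp only [Finset.mem_range, Nat.lt_succ_iff]
  have hGdeg : G.natDegree ≤ n := by
    rw [natDegree_le_iff_coeff_eq_zero]
    intro i hi
    rw [hGc, if_neg (not_le.2 hi)]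
  have hGn : G.coeff n = 1 := by
    rw [hGc, if_pos le_rfl, hgn]
  have hGmonic : G.Monic := monic_of_natDegree_le_of_coeff_eq_one n hGdeg hGn
  refine ⟨N, hN, k, G, hGmonic, ?_, ?_, ?_, ?_⟩
  · refine le_antisymm hGdeg (le_natDegree_of_ne_zero ?_)
    rw [hGn]
    exact one_ne_zero
  · rw [hGc, if_pos (Nat.sub_le _ _), hgn1]
  · intro h3
    have h4 := congrArg (fun p => p.coeff i₀) h3
    simp only [coeff_map, coeff_X_pow, if_neg hi₀n.ne, hGc, if_pos hi₀n.le] at h4
    have h5 := hg i₀ hi₀n.le
    have h6 : k * (n - i₀) = N * (F.coeff i₀).order.toNat := by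
      calc k * (n - i₀) = (n - i₀) * (N / (n - i₀)) * (F.coeff i₀).order.toNat := by
            rw [hk]; ring
        _ = _ := by rw [hNd i₀ hi₀n]
    rw [h6] at h5
    have h7 := congrArg (PowerSeries.coeff (N * (F.coeff i₀).order.toNat)) h5
    have h8 : PowerSeries.coeff (N * (F.coeff i₀).order.toNat) (xp N hN (F.coeff i₀)) =
        PowerSeries.coeff (F.coeff i₀).order.toNat (F.coeff i₀) :=
      PowerSeries.coeff_expand_mul N hN _ _
    rw [h8, PowerSeries.coeff_X_pow_mul', if_pos le_rfl, Nat.sub_self,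
      PowerSeries.coeff_zero_eq_constantCoeff_apply, h4] at h7
    exact PowerSeries.coeff_order hi₀0 h7
  · ext1 i
    rw [comp_C_mul_X_coeff, coeff_map, coeff_C_mul, hGc, ← pow_mul]
    by_cases hi : i ≤ n
    · rw [if_pos hi, hg i hi]
      have h3 : k * n = k * (n - i) + k * i := by
        rw [← mul_add]
        congr 1
        omega
      rw [h3, pow_add]
      ring
    · rw [if_neg hi, hFgt i (not_le.1 hi), map_zero, zero_mul, mul_zero]



theorem xp_xp (M N : ℕ) (hM : M ≠ 0) (hN : N ≠ 0) :
    xp (K := K) (M * N) (Nat.mul_ne_zero hM hN) = (xp M hM).comp (xp N hN) := by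
  refine RingHom.ext fun f => ?_
  exact PowerSeries.expand_mul M hM N hN f

/-- the conclusion for `F` -/
def h46Spl (F : Polynomial (PowerSeries K)) : Prop :=
  ∃ (N : ℕ) (hN : N ≠ 0) (γ : Multiset (PowerSeries K)), F.map (xp N hN) = (γ.map fun a => X - C a).prod

theorem h46_xp_comm (M N : ℕ) (hM : M ≠ 0) (hN : N ≠ 0) :
    xp (K := K) (M * N) (Nat.mul_ne_zero hM hN) = (xp N hN).comp (xp M hM) := by
  have h := xp_xp (K := K) N M hN hM
  rw [← h]
  congr 1
  exact Nat.mul_comm M N

theorem h46_map_prod (f : (PowerSeries K) →+* (PowerSeries K)) (γ : Multiset (PowerSeries K)) :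
    ((γ.map fun a => X - C a).prod).map f = ((γ.map f).map fun a => X - C a).prod := by
  rw [← coe_mapRingHom, map_multiset_prod, Multiset.map_map, Multiset.map_map]
  congr 1
  apply Multiset.map_congr rfl
  intro a _
  simp

theorem h46_mul {P Q : Polynomial (PowerSeries K)} (hP : h46Spl P) (hQ : h46Spl Q) : h46Spl (P * Q) := by
  obtain ⟨N₁, hN₁, γ₁, h₁⟩ := hP
  obtain ⟨N₂, hN₂, γ₂, h₂⟩ := hQ
  refine ⟨N₁ * N₂, Nat.mul_ne_zero hN₁ hN₂, γ₁.map (xp N₂ hN₂) + γ₂.map (xp N₁ hN₁), ?_⟩
  rw [Polynomial.map_mul, Multiset.map_add, Multiset.prod_add, ← h46_map_prod, ← h46_map_prod, ← h₁, ← h₂,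
    Polynomial.map_map, Polynomial.map_map, ← xp_xp N₁ N₂ hN₁ hN₂, ← h46_xp_comm N₁ N₂ hN₁ hN₂]

theorem h46_comp {F : Polynomial (PowerSeries K)} (c : (PowerSeries K)) (h : h46Spl (F.comp (X - C c))) : h46Spl F := by
  obtain ⟨N, hN, γ, hγ⟩ := h
  refine ⟨N, hN, γ.map (fun a => a - xp N hN c), ?_⟩
  have h1 : F = (F.comp (X - C c)).comp (X + C c) := by
    rw [comp_assoc]
    simp
  have h2 : F.map (xp N hN) = ((F.comp (X - C c)).map (xp N hN)).comp (X + C (xp N hN c)) := by
    conv_lhs => rw [h1]
    rw [Polynomial.map_comp]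
    simp
  rw [h2, hγ, ← coe_compRingHom_apply, map_multiset_prod, Multiset.map_map, Multiset.map_map]
  congr 1
  apply Multiset.map_congr rfl
  intro a _
  show (X - C a).comp (X + C (xp N hN c)) = X - C (a - xp N hN c)
  rw [sub_comp, X_comp, C_comp, C_sub]
  ring

theorem h46_xp_X (M : ℕ) (hM : M ≠ 0) (k : ℕ) : xp M hM (PowerSeries.X ^ k : (PowerSeries K)) = PowerSeries.X ^ (M * k) := by
  unfold xp
  rw [map_pow, pow_mul]
  congr 1
  exact PowerSeries.expand_X M hM

theorem h46_scale {F G : Polynomial (PowerSeries K)} {n N k : ℕ} (hN : N ≠ 0) (hG : G.Monic) (hGn : G.natDegree = n)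
    (h : (F.map (xp N hN)).comp (C (PowerSeries.X ^ k) * X) = C (PowerSeries.X ^ (k * n)) * G) (hs : h46Spl G) :
    h46Spl F := by
  obtain ⟨M, hM, γ, hγ⟩ := hs
  have hcard : Multiset.card γ = n := by
    have h1 : (G.map (xp M hM)).natDegree = n := by rw [hG.natDegree_map, hGn]
    rw [hγ, natDegree_multiset_prod_X_sub_C_eq_card] at h1
    exact h1
  set u : (PowerSeries K) := PowerSeries.X ^ (M * k) with hu
  have hu0 : u ≠ 0 := pow_ne_zero _ PowerSeries.X_ne_zero
  refine ⟨M * N, Nat.mul_ne_zero hM hN, γ.map (fun g => u * g), ?_⟩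
  have h1 := congrArg (Polynomial.map (xp M hM)) h
  rw [Polynomial.map_comp, Polynomial.map_map, ← xp_xp M N hM hN, Polynomial.map_mul, Polynomial.map_mul, map_C, map_C, map_X,
    h46_xp_X, h46_xp_X, hγ] at h1
  have h2 : (((γ.map (fun g => u * g)).map fun a => X - C a).prod).comp (C u * X) =
      C (PowerSeries.X ^ (M * (k * n))) * (γ.map fun a => X - C a).prod := by
    rw [← coe_compRingHom_apply, map_multiset_prod, Multiset.map_map, Multiset.map_map]
    have h3 : (γ.map ((compRingHom (C u * X)) ∘ (fun a => X - C a) ∘ fun g => u * g)) =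
        γ.map (fun g => C u * (X - C g)) := by
      apply Multiset.map_congr rfl
      intro a _
      show (X - C (u * a)).comp (C u * X) = C u * (X - C a)
      rw [sub_comp, X_comp, C_comp, C_mul]
      ring
    have h4 : (γ.map (fun g => C u * (X - C g))).prod = C u ^ (Multiset.card γ) * (γ.map fun a => X - C a).prod := by
      rw [Multiset.prod_map_mul, Multiset.map_const', Multiset.prod_replicate]
    rw [Function.comp_assoc] at *
    rw [h3, h4, hcard, hu, ← C_pow, ← pow_mul, mul_assoc]
  rw [← h2] at h1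
  ext1 i
  have h5 := congrArg (fun p => p.coeff i) h1
  simp only [comp_C_mul_X_coeff] at h5
  exact mul_right_cancel₀ (pow_ne_zero i hu0) h5

theorem h46_taylor {R : Type*} [CommRing R] (F : Polynomial R) (hF : F.Monic) (n : ℕ) (hn : F.natDegree = n)
    (h1 : 1 ≤ n) (r : R) : (F.comp (X + C r)).coeff (n - 1) = F.coeff (n - 1) + n * r := by
  have h2 : F.comp (X + C r) = taylor r F := rfl
  rw [h2, taylor_coeff]
  have h3 : (hasseDeriv (n - 1) F).natDegree < 2 := by
    have := natDegree_hasseDeriv_le F (n - 1)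
    omega
  rw [eval_eq_sum_range' h3, Finset.sum_range_succ, Finset.sum_range_one, hasseDeriv_coeff, hasseDeriv_coeff]
  have h4 : 1 + (n - 1) = n := by omega
  have h5 : F.coeff n = 1 := by rw [← hn]; exact hF
  rw [h4, zero_add, Nat.choose_self, h5]
  have h6 : n.choose (n - 1) = n := by
    obtain ⟨m, rfl⟩ : ∃ m, n = m + 1 := ⟨n - 1, by omega⟩
    simp
  rw [h6]
  simp

theorem h46_two_roots (g : Polynomial K) (hg : g.Monic) (n : ℕ) (hn : g.natDegree = n) (h2 : 2 ≤ n)
    (h1 : g.coeff (n - 1) = 0) (h0 : g ≠ X ^ n) : ∃ a b : K, a ≠ b ∧ g.eval a = 0 ∧ g.eval b = 0 := by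
  by_contra hcon
  push Not at hcon
  obtain ⟨a, ha⟩ := IsAlgClosed.exists_root g (by
    rw [degree_eq_natDegree hg.ne_zero, hn]
    exact_mod_cast (by omega : n ≠ 0))
  have hs : g.Splits := IsAlgClosed.splits g
  have hroots : ∀ b ∈ g.roots, b = a := by
    intro b hb
    by_contra hne
    exact hcon a b (fun h => hne h.symm) ha ((mem_roots hg.ne_zero).1 hb)
  have hcard : Multiset.card g.roots = n := by rw [← hn, hs.natDegree_eq_card_roots]
  have hrep : g.roots = Multiset.replicate n a := by
    rw [Multiset.eq_replicate]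
    exact ⟨hcard, hroots⟩
  have hprod : g = (X - C a) ^ n := by
    have h3 := hs.eq_prod_roots
    rw [hg.leadingCoeff, C_1, one_mul, hrep, Multiset.map_replicate, Multiset.prod_replicate] at h3
    exact h3
  have h3 : (X ^ n : Polynomial K).comp (X + C (-a)) = (X - C a) ^ n := by
    rw [pow_comp, X_comp, C_neg, sub_eq_add_neg]
  have h4 := h46_taylor (X ^ n : Polynomial K) (monic_X_pow n) n (natDegree_X_pow n) (by omega) (-a)
  rw [h3, ← hprod, h1, coeff_X_pow, if_neg (by omega), zero_add] at h4
  have h5 : a = 0 := by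
    have hn0 : (n : K) ≠ 0 := by exact_mod_cast (by omega : n ≠ 0)
    have h6 : (n : K) * (-a) = 0 := h4.symm
    rcases mul_eq_zero.1 h6 with h7 | h7
    · exact absurd h7 hn0
    · exact neg_eq_zero.1 h7
  apply h0
  rw [hprod, h5, C_0, sub_zero]

theorem h46_main (n : ℕ) : ∀ F : Polynomial (PowerSeries K), F.Monic → F.natDegree = n → h46Spl F := by
  induction n using Nat.strong_induction_on with
  | _ n ih =>
    intro F hF hn
    rcases Nat.lt_or_ge n 2 with h2 | h2
    · rcases Nat.eq_zero_or_pos n with h0 | h0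
      · subst h0
        have h1 : F = 1 := Polynomial.eq_one_of_monic_natDegree_zero hF hn
        refine ⟨1, one_ne_zero, 0, ?_⟩
        rw [h1]; simp
      · have h1 : n = 1 := by omega
        subst h1
        refine ⟨1, one_ne_zero, {-(xp 1 one_ne_zero (F.coeff 0))}, ?_⟩
        have h3 : F = X + C (F.coeff 0) := hF.eq_X_add_C hn
        conv_lhs => rw [h3]
        simp
    · -- translate
      set c : (PowerSeries K) := PowerSeries.C ((n : K)⁻¹) * F.coeff (n - 1) with hc
      apply h46_comp c
      have hX : (X - C c : Polynomial (PowerSeries K)) = X + C (-c) := by rw [C_neg, sub_eq_add_neg]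
      set F' := F.comp (X - C c) with hF'
      have hM : F'.Monic := hF.comp (monic_X_sub_C c) (by rw [natDegree_X_sub_C]; exact one_ne_zero)
      have hd : F'.natDegree = n := by rw [hF', natDegree_comp, natDegree_X_sub_C, mul_one, hn]
      have h1 : F'.coeff (n - 1) = 0 := by
        rw [hF', hX, h46_taylor F hF n hn (by omega)]
        have hn0 : (n : K) ≠ 0 := by exact_mod_cast (by omega : n ≠ 0)
        have h3 : (n : (PowerSeries K)) * c = F.coeff (n - 1) := by
          rw [hc, ← mul_assoc]
          have h4 : (n : (PowerSeries K)) = PowerSeries.C (n : K) := by simp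
          rw [h4, ← map_mul, mul_inv_cancel₀ hn0, map_one, one_mul]
        rw [mul_neg, h3, add_neg_cancel]
      by_cases h0 : F' = X ^ n
      · refine ⟨1, one_ne_zero, Multiset.replicate n 0, ?_⟩
        rw [h0]
        simp
      · obtain ⟨N, hN, k, G, hG, hGn, hG1, hG0, hG2⟩ := scale_step F' hM n hd h2 h1 h0
        apply h46_scale hN hG hGn hG2
        obtain ⟨a, b, hab, ha, hb⟩ := h46_two_roots (G.map PowerSeries.constantCoeff) (hG.map _) n
          (by rw [hG.natDegree_map, hGn]) h2 (by rw [coeff_map, hG1, map_zero]) hG0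
        obtain ⟨P, Q, hP, hQ, hPQ, hP0, hQ0⟩ := hensel_split G hG a b hab ha hb
        have hdeg : P.natDegree + Q.natDegree = n := by rw [← hP.natDegree_mul hQ, ← hPQ, hGn]
        rw [hPQ]
        exact h46_mul (ih P.natDegree (by omega) P hP rfl) (ih Q.natDegree (by omega) Q hQ rfl)

/-- **Puiseux theorem.** -/
theorem puiseux (F : Polynomial (PowerSeries K)) (hF : F.Monic) :
    ∃ (N : ℕ) (hN : N ≠ 0) (γ : Multiset (PowerSeries K)),
      F.map (xp N hN) = (γ.map fun a => X - C a).prod :=
  h46_main F.natDegree F hF rfl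


end Pool.Agent.Helper97.PLN.Pui
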