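import Pool.Agent.Helper37.PC.Geo1
import Pool.Agent.Helper97.PLN.GeoTr

/-!
# GEO
-/

universe u v

namespace Pool.Agent.PC

open MvPolynomial

/-- **GEO.**  `κ` is algebraically closed in `S`, `T` is transcendental over `κ`, `q` is unramified and
split at `T = 0`, the `x i` are algebraically independent over `E = κ(T, q)`. -/
theorem geo {S : Type u} [Field S] [IsAlgClosed S] [CharZero S] {κ E K0 : Subfield S}
    (hκ : ∀ y : S, IsAlgebraic κ y → y ∈ κ) {T q : S} (hT : Transcendental κ T)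
    (hq : TH.SplitAt κ T q) (hE : E = Subfield.closure ((κ : Set S) ∪ {T, q}))
    {d p r : ℕ} (hp : p.Prime) (hd : d = p * r) (hd3 : 3 ≤ d) {m : ℕ}
    {x : Mon d × Fin (m + 2) → S} (hx : AlgebraicIndependent E x)
    (hK0 : K0 = Subfield.closure ((E : Set S) ∪ Set.range x))
    {w : Fin (m + 2) → S} (hw : ∀ e, w e ∈ E) (hw0 : w 0 = 1) (hw1 : w 1 = T) :
    ∃ (M : ℕ) (G : Fin d → Mon (1 + p * d) → S) (W : Mon (r * (1 + p * d)) → S)
      (H : Mon (d * (p * d)) → S) (D D' : Fin d → Mon M → S) (c : Fin d → Fin (M + 1) → S)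
      (τ : S ≃+* S),
      1 + p * d ≤ M ∧
      -- algebraicity
      (∀ i a, IsAlgebraic K0 (G i a)) ∧ (∀ a, IsAlgebraic K0 (W a)) ∧
      (∀ a, IsAlgebraic K0 (H a)) ∧ (∀ i a, IsAlgebraic K0 (D i a)) ∧
      (∀ i a, IsAlgebraic K0 (D' i a)) ∧ (∀ i a, IsAlgebraic K0 (c i a)) ∧
      -- the identities
      ∏ i, pol (G i) = C T * pol W ^ p + pol H * pol (fun a => ∑ e, x (a, e) * w e) ∧
      (∀ i j, i ≠ j → Cop (G i) (G j) (fun a => ∑ e, x (a, e) * w e) M) ∧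
      (∀ i, c i ≠ 0 ∧
        pol (D i) * pol (G i) + pol (D' i) * pol (fun a => ∑ e, x (a, e) * w e) = polX (c i)) ∧
      -- the automorphism `τ`
      (∀ y ∈ K0, τ y = y) ∧
      (∀ y, IsAlgebraic (Subfield.closure ((κ : Set S) ∪ Set.range x)) y → τ y = y) ∧
      (∀ i a, τ (G i a) = G i a) ∧ (∀ a, τ (W a) = W a) ∧
      (∀ α : S, α ^ p = T → τ α ≠ α) ∧
      -- the transpositions
      ∀ i j l, i ≠ j → j ≠ l → i ≠ l → ∃ ρ : S ≃+* S, (∀ y ∈ K0, ρ y = y) ∧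
        (∀ a, ρ (G i a) = G j a) ∧ (∀ a, ρ (G l a) = G l a) ∧
        ∀ y, IsAlgebraic K0 y → τ (ρ y) = ρ (τ y) :=
  geo_of_geo1 (fun _ _ _ _ _ _ _ φE hφc _ hφT _ _ _ _ hp hd hd3 _ hw0 hw1 =>
    geo1 φE hφc hφT hp hd hd3 hw0 hw1) hκ hT hq hE hp hd hd3 hx hK0 hw hw0 hw1

end Pool.Agent.PC
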