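import Mathlib

/-!
# A regular solution of a square system of polynomial equations is algebraic
-/

set_option autoImplicit false

open Finset
open scoped KaehlerDifferential

namespace Pool.Agent.Helper97.PLN

variable {k : Type*} [Field k] {ι : Type*} [Fintype ι]

theorem derivation_aeval {E : Type*} [CommRing E] [Algebra k E] {M : Type*} [AddCommGroup M]
    [Module k M] [Module E M] [IsScalarTower k E M] (D : Derivation k E M) (u : ι → E)
    (f : MvPolynomial ι k) :
    D (MvPolynomial.aeval u f) =
      ∑ j, MvPolynomial.aeval u (MvPolynomial.pderiv j f) • D (u j) := by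
  classical
  induction f using MvPolynomial.induction_on with
  | C a => simp
  | add p q hp hq => simp [hp, hq, add_smul, sum_add_distrib]
  | mul_X p i hp =>
    rw [map_mul, MvPolynomial.aeval_X, Derivation.leibniz, hp, smul_sum]
    have h7 : ∀ j, MvPolynomial.aeval u (MvPolynomial.pderiv j (p * MvPolynomial.X i)) • D (u j) =
        u i • MvPolynomial.aeval u (MvPolynomial.pderiv j p) • D (u j) +
          (if j = i then MvPolynomial.aeval u p • D (u i) else 0) := by
      intro j
      rw [MvPolynomial.pderiv_mul, map_add, map_mul, map_mul, MvPolynomial.aeval_X]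
      by_cases hji : j = i
      · subst hji
        rw [MvPolynomial.pderiv_X_self, map_one, if_pos rfl, add_smul, mul_one, smul_smul, mul_comm]
      · rw [MvPolynomial.pderiv_X_of_ne (Ne.symm hji), map_zero, if_neg hji, mul_zero, add_zero,
          smul_smul, mul_comm, add_zero]
    simp_rw [h7]
    rw [sum_add_distrib, sum_ite_eq' univ i, if_pos (mem_univ i), add_comm]

variable [DecidableEq ι]

/-- A solution with invertible Jacobian matrix of as many equations as unknowns consists of
algebraic elements (characteristic `0`). -/
theorem isAlgebraic_of_jac {L : Type*} [Field L] [Algebra k L]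
    (Φ : ι → MvPolynomial ι k) (u : ι → L) (h0 : ∀ i, MvPolynomial.aeval u (Φ i) = 0)
    (hJ : (Matrix.of fun i j => MvPolynomial.aeval u (MvPolynomial.pderiv j (Φ i))).det ≠ 0)
    (i : ι) : IsAlgebraic k (u i) := by
  classical
  set E := IntermediateField.adjoin k (Set.range u) with hE
  have hfg : E.FG := ⟨(Set.finite_range u).toFinset, by simp [hE]⟩
  have : Algebra.EssFiniteType k E := IntermediateField.essFiniteType_iff.2 hfg
  let w : ι → E := fun j => ⟨u j, IntermediateField.subset_adjoin _ _ ⟨j, rfl⟩⟩
  have hw : ∀ f : MvPolynomial ι k,
      algebraMap E L (MvPolynomial.aeval w f) = MvPolynomial.aeval u f := by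
    intro f
    rw [← MvPolynomial.aeval_algebraMap_apply]
    rfl
  have hD : ∀ j, KaehlerDifferential.D k E (w j) = 0 := by
    set A : Matrix ι ι E := Matrix.of fun i j =>
      MvPolynomial.aeval w (MvPolynomial.pderiv j (Φ i)) with hA
    have hAdet : A.det ≠ 0 := by
      intro h
      apply hJ
      have h1 := congrArg (algebraMap E L) h
      rw [RingHom.map_det, map_zero] at h1
      rw [← h1]
      congr 1
      ext i j
      simp only [hA, RingHom.mapMatrix_apply, Matrix.map_apply, Matrix.of_apply, hw]
    have hAu : IsUnit A.det := isUnit_iff_ne_zero.2 hAdet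
    have h1 : ∀ i, ∑ j, A i j • KaehlerDifferential.D k E (w j) = 0 := by
      intro i
      have h2 := derivation_aeval (KaehlerDifferential.D k E) w (Φ i)
      have h3 : MvPolynomial.aeval w (Φ i) = 0 := by
        apply (algebraMap E L).injective
        rw [hw, h0, map_zero]
      rw [h3, map_zero] at h2
      exact h2.symm
    intro j
    have h4 : KaehlerDifferential.D k E (w j) =
        ∑ i, A⁻¹ j i • ∑ l, A i l • KaehlerDifferential.D k E (w l) := by
      simp_rw [smul_sum, smul_smul]
      rw [sum_comm]
      simp_rw [← sum_smul]
      have h5 : ∀ l, ∑ i, A⁻¹ j i * A i l = (1 : Matrix ι ι E) j l := by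
        intro l
        rw [← Matrix.nonsing_inv_mul _ hAu, Matrix.mul_apply]
      simp_rw [h5, Matrix.one_apply, ite_smul, one_smul, zero_smul]
      rw [sum_ite_eq, if_pos (mem_univ j)]
    rw [h4]
    simp [h1]
  -- the derivation vanishes on the field generated by the `u j`
  have hall : ∀ x : E, KaehlerDifferential.D k E x = 0 := by
    let F : IntermediateField k E :=
      { carrier := {x | KaehlerDifferential.D k E x = 0}
        mul_mem' := fun {a b} ha hb => by
          change KaehlerDifferential.D k E a = 0 at ha
          change KaehlerDifferential.D k E b = 0 at hb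
          change KaehlerDifferential.D k E (a * b) = 0
          rw [Derivation.leibniz, ha, hb, smul_zero, smul_zero, add_zero]
        one_mem' := Derivation.map_one_eq_zero _
        add_mem' := fun {a b} ha hb => by
          change KaehlerDifferential.D k E a = 0 at ha
          change KaehlerDifferential.D k E b = 0 at hb
          change KaehlerDifferential.D k E (a + b) = 0
          rw [map_add, ha, hb, add_zero]
        zero_mem' := map_zero _
        algebraMap_mem' := fun r => Derivation.map_algebraMap _ r
        inv_mem' := fun x hx => by
          change KaehlerDifferential.D k E x = 0 at hx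
          change KaehlerDifferential.D k E x⁻¹ = 0
          rw [Derivation.leibniz_inv, hx, smul_zero] }
    have hF : F.map (IntermediateField.val E) = E := by
      refine le_antisymm ?_ ?_
      · rintro _ ⟨x, -, rfl⟩
        exact x.2
      · have h7 : IntermediateField.adjoin k (Set.range u) ≤ F.map (IntermediateField.val E) := by
          rw [IntermediateField.adjoin_le_iff]
          rintro _ ⟨j, rfl⟩
          exact ⟨w j, hD j, rfl⟩
        exact h7
    intro x
    have hx : (x : L) ∈ F.map (IntermediateField.val E) := by
      rw [hF]
      exact x.2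
    obtain ⟨y, hy, hyx⟩ := hx
    have : y = x := Subtype.ext hyx
    rw [← this]
    exact hy
  have hsub : Subsingleton (Ω[E⁄k]) := by
    have h8 : (⊤ : Submodule E (Ω[E⁄k])) = ⊥ := by
      rw [← KaehlerDifferential.span_range_derivation, Submodule.span_eq_bot]
      rintro _ ⟨x, rfl⟩
      exact hall x
    exact (Submodule.subsingleton_iff E).1 (subsingleton_of_bot_eq_top h8.symm)
  have hun : Algebra.FormallyUnramified k E := ⟨hsub⟩
  have hsep : Algebra.IsSeparable k E := (Algebra.FormallyUnramified.iff_isSeparable k E).1 hun
  have h8 : IsAlgebraic k (w i) := (Algebra.IsSeparable.isSeparable k (w i)).isIntegral.isAlgebraic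
  have h9 := h8.algHom (IntermediateField.val E)
  exact h9

end Pool.Agent.Helper97.PLN
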