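import Mathlib

/-!
# Systems of equations over power series: a unique solution with given constant terms
-/

set_option autoImplicit false
set_option linter.unusedSectionVars false

open Finset

namespace Pool.Agent.Helper97.PLN

section Taylor

variable {A : Type*} [CommRing A] {ι : Type*} [Fintype ι]

/-- Taylor expansion to order two of a polynomial in several variables. -/
theorem taylor_two (I : Ideal A) (f : MvPolynomial ι A) (u h : ι → A) (hh : ∀ i, h i ∈ I) :
    MvPolynomial.eval (u + h) f - MvPolynomial.eval u f -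
      ∑ j, MvPolynomial.eval u (MvPolynomial.pderiv j f) * h j ∈ I ^ 2 := by
  classical
  induction f using MvPolynomial.induction_on with
  | C a => simp
  | add p q hp hq =>
    have := (I ^ 2).add_mem hp hq
    refine (congrArg (· ∈ I ^ 2) ?_).mp this
    simp only [map_add, add_mul, sum_add_distrib]
    ring
  | mul_X p i hp =>
    have h1 : MvPolynomial.eval (u + h) p - MvPolynomial.eval u p ∈ I := by
      have h2 : ∑ j, MvPolynomial.eval u (MvPolynomial.pderiv j p) * h j ∈ I :=
        I.sum_mem fun j _ => I.mul_mem_left _ (hh j)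
      have h3 := Ideal.pow_le_self (I := I) (n := 2) (by norm_num) hp
      have := I.add_mem h3 h2
      refine (congrArg (· ∈ I) ?_).mp this
      ring
    have h4 : (MvPolynomial.eval (u + h) p - MvPolynomial.eval u p) * h i ∈ I ^ 2 := by
      rw [pow_two]
      exact Ideal.mul_mem_mul h1 (hh i)
    have h5 := (I ^ 2).mul_mem_right (u i) hp
    have := (I ^ 2).add_mem h4 h5
    refine (congrArg (· ∈ I ^ 2) ?_).mp this
    have h6 : ∑ j, MvPolynomial.eval u (MvPolynomial.pderiv j (p * MvPolynomial.X i)) * h j =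
        (∑ j, MvPolynomial.eval u (MvPolynomial.pderiv j p) * h j) * u i +
          MvPolynomial.eval u p * h i := by
      have h7 : ∀ j, MvPolynomial.eval u (MvPolynomial.pderiv j (p * MvPolynomial.X i)) * h j =
          MvPolynomial.eval u (MvPolynomial.pderiv j p) * h j * u i +
            (if j = i then MvPolynomial.eval u p * h i else 0) := by
        intro j
        rw [MvPolynomial.pderiv_mul, map_add, map_mul, map_mul, MvPolynomial.eval_X]
        by_cases hji : j = i
        · subst hji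
          rw [MvPolynomial.pderiv_X_self, map_one, if_pos rfl]
          ring
        · rw [MvPolynomial.pderiv_X_of_ne (Ne.symm hji), map_zero, if_neg hji]
          ring
      simp_rw [h7]
      rw [sum_add_distrib, sum_ite_eq' univ i, if_pos (mem_univ i), sum_mul]
    rw [h6]
    simp only [map_mul, MvPolynomial.eval_X, Pi.add_apply]
    ring

end Taylor

/-- The values of a polynomial at congruent points are congruent. -/
theorem eval_sub_mem {A : Type*} [CommRing A] {σ : Type*} (I : Ideal A) (f : MvPolynomial σ A)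
    (u w : σ → A) (h : ∀ i, w i - u i ∈ I) :
    MvPolynomial.eval w f - MvPolynomial.eval u f ∈ I := by
  rw [← Ideal.Quotient.eq]
  have h1 : (Ideal.Quotient.mk I).comp (MvPolynomial.eval w) =
      (Ideal.Quotient.mk I).comp (MvPolynomial.eval u) := by
    refine MvPolynomial.ringHom_ext (fun a => by simp) fun i => ?_
    simp only [RingHom.comp_apply, MvPolynomial.eval_X]
    exact Ideal.Quotient.eq.2 (h i)
  exact congrArg (fun g : MvPolynomial σ A →+* A ⧸ I => g f) h1

section PS

open PowerSeries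

variable {K : Type*} [Field K]

/-- The maximal ideal. -/
noncomputable def mI (K : Type*) [Field K] : Ideal K⟦X⟧ := Ideal.span {X}

theorem mem_mI_pow (k : ℕ) (f : K⟦X⟧) : f ∈ mI K ^ k ↔ ∀ m < k, coeff m f = 0 := by
  rw [mI, Ideal.span_singleton_pow, Ideal.mem_span_singleton, X_pow_dvd_iff]

theorem mem_mI (f : K⟦X⟧) : f ∈ mI K ↔ constantCoeff f = 0 := by
  rw [mI, Ideal.mem_span_singleton, X_dvd_iff]

variable {ι : Type*} [Fintype ι] [DecidableEq ι]

/-- The Jacobian matrix at the initial point. -/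
noncomputable def jac (Φ : ι → MvPolynomial ι K⟦X⟧) (u0 : ι → K) : Matrix ι ι K :=
  Matrix.of fun i j => constantCoeff
    (MvPolynomial.eval (fun j => C (u0 j)) (MvPolynomial.pderiv j (Φ i)))

variable (Φ : ι → MvPolynomial ι K⟦X⟧) (u0 : ι → K)

theorem jac_mem (u : ι → K⟦X⟧) (hu : ∀ i, constantCoeff (u i) = u0 i) (i j : ι) :
    MvPolynomial.eval u (MvPolynomial.pderiv j (Φ i)) - C (jac Φ u0 i j) ∈ mI K := by
  have h1 := eval_sub_mem (mI K) (MvPolynomial.pderiv j (Φ i)) (fun j => C (u0 j)) u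
    (fun i => by rw [mem_mI, map_sub, hu]; simp)
  rw [mem_mI] at h1 ⊢
  rw [map_sub] at h1 ⊢
  rw [constantCoeff_C, jac, Matrix.of_apply]
  exact h1

theorem sum_jac_mem (k : ℕ) (u h : ι → K⟦X⟧) (hu : ∀ i, constantCoeff (u i) = u0 i)
    (hh : ∀ i, h i ∈ mI K ^ k) (i : ι) :
    ∑ j, MvPolynomial.eval u (MvPolynomial.pderiv j (Φ i)) * h j -
      ∑ j, C (jac Φ u0 i j) * h j ∈ mI K ^ (k + 1) := by
  rw [← sum_sub_distrib]
  refine Ideal.sum_mem _ fun j _ => ?_
  rw [← sub_mul, pow_succ']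
  exact Ideal.mul_mem_mul (jac_mem Φ u0 u hu i j) (hh j)

theorem step_mem (k : ℕ) (hk : 1 ≤ k) (u h : ι → K⟦X⟧) (hu : ∀ i, constantCoeff (u i) = u0 i)
    (hh : ∀ i, h i ∈ mI K ^ k) (i : ι) :
    MvPolynomial.eval (u + h) (Φ i) - MvPolynomial.eval u (Φ i) -
      ∑ j, C (jac Φ u0 i j) * h j ∈ mI K ^ (k + 1) := by
  have h1 := taylor_two (mI K ^ k) (Φ i) u h hh
  have h2 := sum_jac_mem Φ u0 k u h hu hh i
  have h3 : (mI K ^ k) ^ 2 ≤ mI K ^ (k + 1) := by
    rw [← pow_mul]
    exact Ideal.pow_le_pow_right (by omega)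
  have h4 := Ideal.add_mem _ (h3 h1) h2
  refine (congrArg (· ∈ mI K ^ (k + 1)) ?_).mp h4
  ring

/-- Uniqueness. -/
theorem hensel_unique (hJ : IsUnit (jac Φ u0).det) (u w : ι → K⟦X⟧)
    (hu : ∀ i, constantCoeff (u i) = u0 i) (hw : ∀ i, constantCoeff (w i) = u0 i)
    (hu0 : ∀ i, MvPolynomial.eval u (Φ i) = 0) (hw0 : ∀ i, MvPolynomial.eval w (Φ i) = 0) :
    u = w := by
  have key : ∀ k : ℕ, ∀ i, (w - u) i ∈ mI K ^ (k + 1) := by
    intro k
    induction k with
    | zero =>
      intro i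
      rw [zero_add, pow_one, mem_mI, Pi.sub_apply, map_sub, hu, hw, sub_self]
    | succ k ih =>
      have h1 : ∀ i, ∑ j, C (jac Φ u0 i j) * (w - u) j ∈ mI K ^ (k + 1 + 1) := by
        intro i
        have h2 := step_mem Φ u0 (k + 1) (by omega) u (w - u) hu ih i
        rw [add_sub_cancel, hu0, hw0, sub_zero, zero_sub] at h2
        exact neg_mem_iff.1 h2
      intro i
      have h3 : (w - u) i = ∑ j, C ((jac Φ u0)⁻¹ i j) * ∑ l, C (jac Φ u0 j l) * (w - u) l := by
        simp_rw [mul_sum]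
        rw [sum_comm]
        have h4 : ∀ l, ∑ j, C ((jac Φ u0)⁻¹ i j) * (C (jac Φ u0 j l) * (w - u) l) =
            if i = l then (w - u) l else 0 := by
          intro l
          simp_rw [← mul_assoc, ← sum_mul, ← map_mul, ← map_sum]
          have h5 : ∑ j, (jac Φ u0)⁻¹ i j * jac Φ u0 j l = (1 : Matrix ι ι K) i l := by
            rw [← Matrix.nonsing_inv_mul _ hJ, Matrix.mul_apply]
          rw [h5, Matrix.one_apply]
          split_ifs <;> simp
        simp_rw [h4]
        rw [sum_ite_eq, if_pos (mem_univ i)]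
      rw [h3]
      exact Ideal.sum_mem _ fun j _ => Ideal.mul_mem_left _ _ (h1 j)
  funext i
  have h6 : (w - u) i = 0 := by
    ext m
    have := (mem_mI_pow _ _).1 (key m i) m (by omega)
    rw [this, map_zero]
  exact (sub_eq_zero.1 h6).symm

/-- Newton's iteration with a constant matrix. -/
noncomputable def nstep (u : ι → K⟦X⟧) : ι → K⟦X⟧ :=
  u + fun i => -∑ j, C ((jac Φ u0)⁻¹ i j) * MvPolynomial.eval u (Φ j)

theorem nstep_spec (hJ : IsUnit (jac Φ u0).det) (k : ℕ) (u : ι → K⟦X⟧)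
    (hu : ∀ i, constantCoeff (u i) = u0 i)
    (h0 : ∀ i, MvPolynomial.eval u (Φ i) ∈ mI K ^ (k + 1)) :
    (∀ i, nstep Φ u0 u i - u i ∈ mI K ^ (k + 1)) ∧
    (∀ i, constantCoeff (nstep Φ u0 u i) = u0 i) ∧
    ∀ i, MvPolynomial.eval (nstep Φ u0 u) (Φ i) ∈ mI K ^ (k + 1 + 1) := by
  set h : ι → K⟦X⟧ := fun i => -∑ j, C ((jac Φ u0)⁻¹ i j) * MvPolynomial.eval u (Φ j) with hh
  have h1 : ∀ i, h i ∈ mI K ^ (k + 1) := fun i =>
    (Ideal.neg_mem_iff _).2 (Ideal.sum_mem _ fun j _ => Ideal.mul_mem_left _ _ (h0 j))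
  have h2 : nstep Φ u0 u = u + h := rfl
  refine ⟨fun i => ?_, fun i => ?_, fun i => ?_⟩
  · rw [h2, Pi.add_apply, add_sub_cancel_left]
    exact h1 i
  · rw [h2, Pi.add_apply, map_add, hu]
    have h3 := (mem_mI_pow _ _).1 (h1 i) 0 (by omega)
    rw [coeff_zero_eq_constantCoeff_apply] at h3
    rw [h3, add_zero]
  · have h3 := step_mem Φ u0 (k + 1) (by omega) u h hu h1 i
    have h4 : ∑ j, C (jac Φ u0 i j) * h j = -MvPolynomial.eval u (Φ i) := by
      simp_rw [hh, mul_neg, sum_neg_distrib, mul_sum]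
      rw [sum_comm]
      have h4 : ∀ l, ∑ j, C (jac Φ u0 i j) * (C ((jac Φ u0)⁻¹ j l) * MvPolynomial.eval u (Φ l)) =
          if i = l then MvPolynomial.eval u (Φ l) else 0 := by
        intro l
        simp_rw [← mul_assoc, ← sum_mul, ← map_mul, ← map_sum]
        have h5 : ∑ j, jac Φ u0 i j * (jac Φ u0)⁻¹ j l = (1 : Matrix ι ι K) i l := by
          rw [← Matrix.mul_nonsing_inv _ hJ, Matrix.mul_apply]
        rw [h5, Matrix.one_apply]
        split_ifs <;> simp
      simp_rw [h4]
      rw [sum_ite_eq, if_pos (mem_univ i)]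
    rw [h4, h2.symm] at h3
    refine (congrArg (· ∈ mI K ^ (k + 1 + 1)) ?_).mp h3
    ring

/-- Existence. -/
theorem hensel_exists (hJ : IsUnit (jac Φ u0).det)
    (h0 : ∀ i, constantCoeff (MvPolynomial.eval (fun j => C (u0 j)) (Φ i)) = 0) :
    ∃ u : ι → K⟦X⟧, (∀ i, constantCoeff (u i) = u0 i) ∧ ∀ i, MvPolynomial.eval u (Φ i) = 0 := by
  set U : ℕ → ι → K⟦X⟧ := fun k => (nstep Φ u0)^[k] (fun j => C (u0 j)) with hU
  have hUs : ∀ k, U (k + 1) = nstep Φ u0 (U k) := fun k => Function.iterate_succ_apply' _ _ _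
  have hinv : ∀ k, (∀ i, constantCoeff (U k i) = u0 i) ∧
      ∀ i, MvPolynomial.eval (U k) (Φ i) ∈ mI K ^ (k + 1) := by
    intro k
    induction k with
    | zero =>
      refine ⟨fun i => by simp [hU], fun i => ?_⟩
      rw [zero_add, pow_one, mem_mI]
      exact h0 i
    | succ k ih =>
      have h1 := nstep_spec Φ u0 hJ k (U k) ih.1 ih.2
      rw [hUs]
      exact ⟨h1.2.1, h1.2.2⟩
  have hd : ∀ k i, U (k + 1) i - U k i ∈ mI K ^ (k + 1) := by
    intro k i
    rw [hUs]
    exact (nstep_spec Φ u0 hJ k (U k) (hinv k).1 (hinv k).2).1 i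
  have hc : ∀ m k i, m ≤ k → coeff m (U k i) = coeff m (U m i) := by
    intro m k i hmk
    induction k, hmk using Nat.le_induction with
    | base => rfl
    | succ k hmk ih =>
      have h1 := (mem_mI_pow _ _).1 (hd k i) m (by omega)
      rw [map_sub, sub_eq_zero] at h1
      rw [h1, ih]
  refine ⟨fun i => PowerSeries.mk fun n => coeff n (U n i), fun i => ?_, fun i => ?_⟩
  · rw [← coeff_zero_eq_constantCoeff_apply, coeff_mk, coeff_zero_eq_constantCoeff_apply]
    exact (hinv 0).1 i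
  · ext m
    have h1 := eval_sub_mem (mI K ^ (m + 1)) (Φ i) (U m)
      (fun i => PowerSeries.mk fun n => coeff n (U n i)) (fun j => by
        rw [mem_mI_pow]
        intro n hn
        rw [map_sub, coeff_mk, hc n m j (by omega), sub_self])
    have h2 := Ideal.add_mem _ h1 ((hinv m).2 i)
    rw [sub_add_cancel] at h2
    rw [(mem_mI_pow _ _).1 h2 m (by omega), map_zero]

end PS

end Pool.Agent.Helper97.PLN
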