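import Pool.Agent.Helper97.PLN.Hensel
import Pool.Agent.Helper97.PLN.Alg

/-!
# Blocks L2 and L3 of project PLANE
-/

set_option autoImplicit false

universe u v

namespace Pool.Agent.PC

open MvPolynomial Pool.Agent.Helper97.PLN

/-- L2: the implicit function theorem (Hensel) over power series. -/
theorem mv_hensel {A : Type u} [Field A] {B : Type v} [Fintype B] [DecidableEq B]
    (Φ : B → MvPolynomial B (PowerSeries A)) (z0 : B → A)
    (h0 : ∀ i, PowerSeries.constantCoeff
      (eval (fun b => PowerSeries.C (z0 b)) (Φ i)) = 0)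
    (hJ : (Matrix.of fun i j => PowerSeries.constantCoeff
      (eval (fun b => PowerSeries.C (z0 b)) (pderiv j (Φ i)))).det ≠ 0) :
    ∃ z : B → PowerSeries A, (∀ b, PowerSeries.constantCoeff (z b) = z0 b) ∧
      (∀ i, eval z (Φ i) = 0) ∧
      (∀ z' : B → PowerSeries A, (∀ b, PowerSeries.constantCoeff (z' b) = z0 b) →
        (∀ i, eval z' (Φ i) = 0) → z' = z) ∧
      (Matrix.of fun i j => eval z (pderiv j (Φ i))).det ≠ 0 := by
  have hJ' : IsUnit (jac Φ z0).det := isUnit_iff_ne_zero.2 hJ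
  obtain ⟨z, hz, hz0⟩ := hensel_exists Φ z0 hJ' h0
  refine ⟨z, hz, hz0, fun z' hz' hz0' => hensel_unique Φ z0 hJ' z' z hz' hz hz0' hz0, ?_⟩
  intro h
  have h1 := congrArg PowerSeries.constantCoeff h
  rw [RingHom.map_det, map_zero] at h1
  apply hJ
  rw [← h1]
  congr 1
  ext i j
  rw [RingHom.mapMatrix_apply, Matrix.map_apply, Matrix.of_apply, Matrix.of_apply]
  have h2 := jac_mem Φ z0 z hz i j
  rw [mem_mI, map_sub, PowerSeries.constantCoeff_C, sub_eq_zero] at h2
  exact h2.symm

/-- L3: solutions with invertible Jacobian are algebraic. -/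
theorem alg_of_jac {K : Type u} {L : Type v} [Field K] [Field L] [Algebra K L]
    {B : Type*} [Fintype B] [DecidableEq B] (Φ : B → MvPolynomial B K) (z : B → L)
    (h : ∀ i, aeval z (Φ i) = 0)
    (hJ : (Matrix.of fun i j => aeval z (pderiv j (Φ i))).det ≠ 0) :
    ∀ b, IsAlgebraic K (z b) :=
  isAlgebraic_of_jac Φ z h hJ

end Pool.Agent.PC
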