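import Mathlib

/-!
# Partial fractions with a condition at infinity
-/

set_option autoImplicit false

open Polynomial Finset

namespace Pool.Agent.Helper97.PLN

variable {K : Type*} [Field K]

theorem pfd {d n m l : ℕ} (r t : Fin d → K[X]) (hr : ∀ i, (r i).Monic) (ht : ∀ i, (t i).Monic)
    (hrd : ∀ i, (r i).natDegree = n - m) (htd : ∀ i, (t i).natDegree = m) (hmn : m < n)
    (hcop : Pairwise fun i j => IsCoprime (r i * t i) (r j * t j)) (hl : l ≤ m) (hd : 0 < d)
    (a : K[X]) (ha : a.natDegree ≤ d * n - l) :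
    ∃ (b : Fin d → K[X]) (v : K[X]), (∀ i, (b i).natDegree ≤ n - l) ∧
      v.natDegree ≤ d * m - l ∧
      a = ∑ i, b i * ∏ j ∈ univ.erase i, (r j * t j) + v * ∏ j, r j := by
  classical
  have hg : ∀ i ∈ (univ : Finset (Fin d)), (r i * t i).Monic := fun i _ => (hr i).mul (ht i)
  have hgd : ∀ i, (r i * t i).natDegree = n := by
    intro i
    rw [(hr i).natDegree_mul (ht i), hrd, htd]
    omega
  obtain ⟨q, β, hβ, hab⟩ := eq_quo_mul_prod_add_sum_rem_mul_prod (s := univ) a hg
    (fun i _ j _ hij => hcop hij)
  have hPm : (∏ i, (r i * t i)).Monic := monic_prod_of_monic _ _ hg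
  have hPd : (∏ i, (r i * t i)).natDegree = d * n := by
    rw [natDegree_prod_of_monic _ _ hg]
    simp [hgd]
  have hEm : ∀ i, (∏ j ∈ univ.erase i, (r j * t j)).Monic := fun i =>
    monic_prod_of_monic _ _ fun j _ => hg j (mem_univ j)
  have hEd : ∀ i : Fin d, (∏ j ∈ univ.erase i, (r j * t j)).natDegree = (d - 1) * n := by
    intro i
    rw [natDegree_prod_of_monic _ _ fun j _ => hg j (mem_univ j)]
    simp [hgd]
  have hdn : (d - 1) * n + n = d * n := by
    obtain ⟨d', rfl⟩ := Nat.exists_eq_succ_of_ne_zero hd.ne'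
    simp [Nat.succ_mul]
  have hβn : ∀ i, (β i).degree < (n : ℕ) := by
    intro i
    have h := hβ i (mem_univ i)
    rwa [degree_eq_natDegree ((hr i).mul (ht i)).ne_zero, hgd i] at h
  -- the degree of a sum of this kind
  have hsum : ∀ (c : Fin d → K[X]) (e : ℕ), (∀ i, (c i).natDegree ≤ e) →
      (∑ i, c i * ∏ j ∈ univ.erase i, (r j * t j)).natDegree ≤ e + (d - 1) * n := by
    intro c e hc
    refine natDegree_sum_le_of_forall_le _ _ fun i _ => ?_
    refine natDegree_mul_le.trans ?_
    rw [hEd i]
    have := hc i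
    omega
  have hβ1 : ∀ i, (β i).natDegree ≤ n - 1 := by
    intro i
    have h := hβn i
    by_cases h0 : β i = 0
    · simp [h0]
    · rw [degree_eq_natDegree h0] at h
      have : (β i).natDegree < n := by exact_mod_cast h
      omega
  have hsβ := hsum β (n - 1) hβ1
  have hn0 : 0 < n := by omega
  have hqd : (q * ∏ i, (r i * t i)).natDegree ≤ d * n := by
    have h1 : q * ∏ i, (r i * t i) = a - ∑ i, β i * ∏ j ∈ univ.erase i, (r j * t j) := by
      rw [hab]
      ring
    rw [h1]
    refine (natDegree_sub_le _ _).trans (max_le (ha.trans (Nat.sub_le _ _)) ?_)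
    omega
  by_cases hl0 : l = 0
  · subst hl0
    have hq0 : q.natDegree = 0 := by
      by_cases hq : q = 0
      · simp [hq]
      · rw [natDegree_mul hq hPm.ne_zero, hPd] at hqd
        omega
    obtain ⟨c, hc⟩ : ∃ c, q = C c := ⟨_, eq_C_of_natDegree_eq_zero hq0⟩
    let i0 : Fin d := ⟨0, hd⟩
    refine ⟨Function.update β i0 (β i0 + C c * (r i0 * t i0)), 0, ?_, by simp, ?_⟩
    · intro i
      by_cases hi : i = i0
      · subst hi
        rw [Function.update_self]
        refine (natDegree_add_le _ _).trans (max_le ?_ ?_)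
        · have := hβ1 i0
          omega
        · refine natDegree_mul_le.trans ?_
          rw [natDegree_C, hgd]
          omega
      · rw [Function.update_of_ne hi]
        have := hβ1 i
        omega
    · rw [zero_mul, add_zero]
      conv_lhs => rw [hab]
      rw [← add_sum_erase _ _ (mem_univ i0)]
      conv_rhs => rw [← add_sum_erase _ _ (mem_univ i0)]
      rw [Function.update_self, hc]
      have h2 : ∑ x ∈ univ.erase i0, Function.update β i0 (β i0 + C c * (r i0 * t i0)) x *
          ∏ j ∈ univ.erase x, (r j * t j) = ∑ x ∈ univ.erase i0, β x *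
          ∏ j ∈ univ.erase x, (r j * t j) := by
        refine sum_congr rfl fun x hx => ?_
        rw [Function.update_of_ne (ne_of_mem_erase hx)]
      rw [h2, ← mul_prod_erase univ (fun i => r i * t i) (mem_univ i0)]
      ring
  · -- the quotient vanishes
    have hq0 : q = 0 := by
      by_contra hq
      have h1 : q * ∏ i, (r i * t i) = a - ∑ i, β i * ∏ j ∈ univ.erase i, (r j * t j) := by
        rw [hab]
        ring
      have h2 : (q * ∏ i, (r i * t i)).natDegree < d * n := by
        rw [h1]
        refine (natDegree_sub_le _ _).trans_lt (max_lt (ha.trans_lt ?_) ?_)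
        · have : 0 < d * n := Nat.mul_pos hd hn0
          omega
        · omega
      rw [natDegree_mul hq hPm.ne_zero, hPd] at h2
      omega
    have hb : ∀ i, β i %ₘ r i + r i * (β i /ₘ r i) = β i := fun i => modByMonic_add_div _ _
    set v : K[X] := ∑ i, (β i /ₘ r i) * ∏ j ∈ univ.erase i, t j with hv
    have hid : a = ∑ i, (β i %ₘ r i) * ∏ j ∈ univ.erase i, (r j * t j) + v * ∏ j, r j := by
      rw [hab, hq0, zero_mul, zero_add, hv, sum_mul, ← sum_add_distrib]
      refine sum_congr rfl fun i _ => ?_
      conv_lhs => rw [← hb i]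
      rw [add_mul, ← mul_prod_erase univ r (mem_univ i), prod_mul_distrib]
      ring
    have hbd : ∀ i, (β i %ₘ r i).natDegree ≤ n - l := by
      intro i
      have h1 : (β i %ₘ r i).natDegree ≤ (r i).natDegree := natDegree_modByMonic_le _ (hr i)
      rw [hrd i] at h1
      omega
    refine ⟨fun i => β i %ₘ r i, v, hbd, ?_, hid⟩
    have hRm : (∏ j, r j).Monic := monic_prod_of_monic _ _ fun j _ => hr j
    have hRd : (∏ j, r j).natDegree = d * (n - m) := by
      rw [natDegree_prod_of_monic _ _ fun j _ => hr j]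
      simp [hrd]
    by_cases hv0 : v = 0
    · simp [hv0]
    have h1 : v * ∏ j, r j = a - ∑ i, (β i %ₘ r i) * ∏ j ∈ univ.erase i, (r j * t j) := by
      conv_rhs => rw [hid]
      ring
    have h2 : (v * ∏ j, r j).natDegree ≤ d * n - l := by
      rw [h1]
      refine (natDegree_sub_le _ _).trans (max_le ha ((hsum _ (n - l) hbd).trans ?_))
      omega
    rw [natDegree_mul hv0 hRm.ne_zero, hRd] at h2
    have h3 : d * (n - m) = d * n - d * m := Nat.mul_sub ..
    have h4 : d * m ≤ d * n := Nat.mul_le_mul_left _ hmn.le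
    omega

end Pool.Agent.Helper97.PLN
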