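import Pool.Agent.Helper97.PLN.Puis

/-!
# Block PUI of project PLANE

Puiseux series inside Hahn series, coefficientwise automorphisms, twists, characters.
-/

set_option autoImplicit false

universe u

namespace Pool.Agent.Helper97.PLN.Pui

open HahnSeries Polynomial

section emb

variable {κ : Type u} [Field κ]

/-- `b ↦ b / N` -/
def dv (N : ℕ) : ℤ →+ ℚ where
  toFun b := (b : ℚ) / N
  map_zero' := by simp
  map_add' a b := by push_cast; ring

theorem dv_le {N : ℕ} (hN : 0 < N) (a b : ℤ) : dv N a ≤ dv N b ↔ a ≤ b := by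
  have h : (0 : ℚ) < N := by exact_mod_cast hN
  show (a : ℚ) / N ≤ (b : ℚ) / N ↔ a ≤ b
  rw [div_le_div_iff_of_pos_right h]
  exact_mod_cast Iff.rfl

theorem dv_inj {N : ℕ} (hN : 0 < N) : Function.Injective (dv N) := by
  intro a b h
  exact le_antisymm ((dv_le hN a b).1 h.le) ((dv_le hN b a).1 h.ge)

/-- `t ↦ t ^ (1 / N)` on Laurent series -/
noncomputable def ph {N : ℕ} (hN : 0 < N) : HahnSeries ℤ κ →+* HahnSeries ℚ κ :=
  embDomainRingHom (dv N) (dv_inj hN) (dv_le hN)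

theorem ph_coeff {N : ℕ} (hN : 0 < N) (x : HahnSeries ℤ κ) (b : ℤ) :
    (ph hN x).coeff ((b : ℚ) / N) = x.coeff b :=
  embDomain_mk_coeff (dv_inj hN) (dv_le hN)

theorem ph_coeff_not {N : ℕ} (hN : 0 < N) (x : HahnSeries ℤ κ) (a : ℚ)
    (h : ∀ b : ℤ, (b : ℚ) / N ≠ a) : (ph hN x).coeff a = 0 := by
  refine embDomain_of_notMem_range ?_
  rintro ⟨b, hb⟩
  exact h b hb

theorem ph_single {N : ℕ} (hN : 0 < N) (b : ℤ) (r : κ) :
    ph hN (single b r) = single ((b : ℚ) / N) r :=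
  embDomain_single

theorem mem_range_ph {N : ℕ} (hN : 0 < N) (x : HahnSeries ℚ κ) :
    x ∈ (ph (κ := κ) hN).fieldRange ↔ ∀ a : ℚ, x.coeff a ≠ 0 → ∃ b : ℤ, a * N = b := by
  have hN' : (N : ℚ) ≠ 0 := by exact_mod_cast hN.ne'
  constructor
  · rintro ⟨y, rfl⟩ a ha
    by_contra h
    push Not at h
    apply ha
    refine ph_coeff_not hN y a fun b hb => h b ?_
    rw [← hb]
    field_simp
  · intro h
    let y : HahnSeries ℤ κ :=
      { coeff := fun b => x.coeff ((b : ℚ) / N)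
        isPWO_support' := by
          intro f
          obtain ⟨m, n, hmn, hle⟩ := x.isPWO_support
            (fun i => ⟨(((f i).1 : ℤ) : ℚ) / N, (f i).2⟩)
          exact ⟨m, n, hmn, (dv_le hN _ _).1 hle⟩ }
    refine ⟨y, ?_⟩
    ext a
    by_cases hb : ∃ b : ℤ, (b : ℚ) / N = a
    · obtain ⟨b, rfl⟩ := hb
      rw [ph_coeff]
    · rw [ph_coeff_not hN y a (fun b hb' => hb ⟨b, hb'⟩)]
      by_contra h0
      obtain ⟨b, hb'⟩ := h a (Ne.symm h0)
      apply hb
      refine ⟨b, ?_⟩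
      rw [← hb']
      field_simp

theorem range_ph_mono {N M : ℕ} (hN : 0 < N) (hM : 0 < M) (h : N ∣ M) :
    (ph (κ := κ) hN).fieldRange ≤ (ph (κ := κ) hM).fieldRange := by
  intro x hx
  rw [mem_range_ph] at hx ⊢
  intro a ha
  obtain ⟨b, hb⟩ := hx a ha
  obtain ⟨c, rfl⟩ := h
  refine ⟨b * c, ?_⟩
  push_cast
  rw [← hb]
  ring

/-- Puiseux series -/
noncomputable def Pus (κ : Type u) [Field κ] : Subfield (HahnSeries ℚ κ) where
  carrier := {x | ∃ (N : ℕ) (hN : 0 < N), x ∈ (ph (κ := κ) hN).fieldRange}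
  mul_mem' := by
    rintro x y ⟨N, hN, hx⟩ ⟨M, hM, hy⟩
    exact ⟨N * M, Nat.mul_pos hN hM, mul_mem
      (range_ph_mono hN (Nat.mul_pos hN hM) (dvd_mul_right _ _) hx)
      (range_ph_mono hM (Nat.mul_pos hN hM) (dvd_mul_left _ _) hy)⟩
  one_mem' := ⟨1, one_pos, one_mem _⟩
  add_mem' := by
    rintro x y ⟨N, hN, hx⟩ ⟨M, hM, hy⟩
    exact ⟨N * M, Nat.mul_pos hN hM, add_mem
      (range_ph_mono hN (Nat.mul_pos hN hM) (dvd_mul_right _ _) hx)
      (range_ph_mono hM (Nat.mul_pos hN hM) (dvd_mul_left _ _) hy)⟩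
  zero_mem' := ⟨1, one_pos, zero_mem _⟩
  neg_mem' := by
    rintro x ⟨N, hN, hx⟩
    exact ⟨N, hN, neg_mem hx⟩
  inv_mem' := by
    rintro x ⟨N, hN, hx⟩
    exact ⟨N, hN, inv_mem hx⟩

theorem mem_Pus (x : HahnSeries ℚ κ) : x ∈ Pus κ ↔ ∃ (N : ℕ) (hN : 0 < N),
    x ∈ (ph (κ := κ) hN).fieldRange := Iff.rfl

theorem ph_expand {N M : ℕ} (hN : 0 < N) (hM : 0 < M) (f : PowerSeries κ) :
    ph (Nat.mul_pos hN hM) (ofPowerSeries ℤ κ (PowerSeries.expand M hM.ne' f)) =
      ph hN (ofPowerSeries ℤ κ f) := by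
  have hN' : (N : ℚ) ≠ 0 := by exact_mod_cast hN.ne'
  have hM' : (M : ℚ) ≠ 0 := by exact_mod_cast hM.ne'
  have hneg : ∀ (g : PowerSeries κ) (b : ℤ), b < 0 → (ofPowerSeries ℤ κ g).coeff b = 0 := by
    intro g b hb
    rw [ofPowerSeries_apply]
    refine embDomain_of_notMem_range ?_
    rintro ⟨n, hn⟩
    have : ((n : ℕ) : ℤ) = b := hn
    omega
  ext a
  by_cases h1 : ∃ b : ℤ, (b : ℚ) / ((N * M : ℕ) : ℚ) = a
  · obtain ⟨b, rfl⟩ := h1
    rw [ph_coeff]
    by_cases h2 : (M : ℤ) ∣ b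
    · obtain ⟨c, rfl⟩ := h2
      have h3 : (((M : ℤ) * c : ℤ) : ℚ) / ((N * M : ℕ) : ℚ) = (c : ℚ) / N := by
        push_cast
        field_simp
      rw [h3, ph_coeff]
      rcases lt_or_ge c 0 with hc | hc
      · rw [hneg _ _ hc, hneg _ _ (by nlinarith [(by exact_mod_cast hM : (0 : ℤ) < M)])]
      · obtain ⟨n, rfl⟩ := Int.eq_ofNat_of_zero_le hc
        have h4 : ((M : ℤ) * ((n : ℕ) : ℤ)) = ((M * n : ℕ) : ℤ) := by push_cast; ring
        rw [h4, ofPowerSeries_apply_coeff, ofPowerSeries_apply_coeff,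
          PowerSeries.coeff_expand_mul]
    · have h3 : (ph hN (ofPowerSeries ℤ κ f)).coeff ((b : ℚ) / ((N * M : ℕ) : ℚ)) = 0 := by
        refine ph_coeff_not hN _ _ fun c hc => h2 ⟨c, ?_⟩
        push_cast at hc
        field_simp at hc
        have : (c : ℚ) * M = b := hc
        have h5 : c * (M : ℤ) = b := by exact_mod_cast this
        rw [← h5]
        ring
      rw [h3]
      rcases lt_or_ge b 0 with hb | hb
      · exact hneg _ _ hb
      · obtain ⟨n, rfl⟩ := Int.eq_ofNat_of_zero_le hb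
        rw [ofPowerSeries_apply_coeff]
        refine PowerSeries.coeff_expand_of_not_dvd M hM.ne' _ fun h => h2 ?_
        exact_mod_cast h
  · rw [ph_coeff_not _ _ _ fun b hb => h1 ⟨b, hb⟩]
    refine (ph_coeff_not hN _ _ fun b hb => h1 ⟨b * M, ?_⟩).symm
    rw [← hb]
    push_cast
    field_simp

/-- Every Laurent series is integral after multiplication with a power of `t`. -/
theorem exists_ps (x : HahnSeries ℤ κ) : ∃ k : ℕ, ∀ j : ℕ, k ≤ j →
    ∃ f : PowerSeries κ, ofPowerSeries ℤ κ f = single (j : ℤ) 1 * x := by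
  refine ⟨x.order.natAbs, fun j hj => ?_⟩
  have h0 : 0 ≤ (j : ℤ) + x.order := by omega
  obtain ⟨n, hn⟩ := Int.eq_ofNat_of_zero_le h0
  refine ⟨PowerSeries.X ^ n * LaurentSeries.powerSeriesPart x, ?_⟩
  rw [map_mul, ofPowerSeries_X_pow, LaurentSeries.ofPowerSeries_powerSeriesPart, ← mul_assoc,
    single_mul_single, mul_one]
  have h3 : ((n : ℕ) : ℤ) + -x.order = (j : ℤ) := by
    have : ((n : ℕ) : ℤ) = (j : ℤ) + x.order := hn.symm
    rw [this]
    ring
  rw [h3]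

theorem isAlgClosed_Pus [IsAlgClosed κ] [CharZero κ] : IsAlgClosed (Pus κ) := by
  classical
  refine IsAlgClosed.of_exists_root _ fun p hp hirr => ?_
  set n := p.natDegree with hn
  have hn0 : 0 < n := hirr.natDegree_pos
  -- a common denominator
  have h1 : ∀ i, ∃ (N : ℕ) (hN : 0 < N), ((p.coeff i : Pus κ) : HahnSeries ℚ κ) ∈
      (ph (κ := κ) hN).fieldRange := fun i => (p.coeff i).2
  choose D hD hDm using h1
  set N : ℕ := ∏ i ∈ Finset.range (n + 1), D i with hNdef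
  have hN : 0 < N := Finset.prod_pos fun i _ => hD i
  have h2 : ∀ i, ∃ c : HahnSeries ℤ κ, i ≤ n →
      ph hN c = ((p.coeff i : Pus κ) : HahnSeries ℚ κ) := by
    intro i
    by_cases hi : i ≤ n
    · obtain ⟨c, hc⟩ := range_ph_mono (hD i) hN
        (Finset.dvd_prod_of_mem D (Finset.mem_range.2 (Nat.lt_succ_of_le hi))) (hDm i)
      exact ⟨c, fun _ => hc⟩
    · exact ⟨0, fun h => absurd h hi⟩
  choose c hc using h2
  -- scaling
  choose k hk using fun i => exists_ps (c i)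
  set s : ℕ := ∑ i ∈ Finset.range n, k i with hs
  have h3 : ∀ i, ∃ f : PowerSeries κ, i < n →
      ofPowerSeries ℤ κ f = single ((s * (n - i) : ℕ) : ℤ) 1 * c i := by
    intro i
    by_cases hi : i < n
    · have h4 : k i ≤ s := Finset.single_le_sum (f := k) (fun _ _ => Nat.zero_le _)
        (Finset.mem_range.2 hi)
      have h5 : 1 ≤ n - i := by omega
      obtain ⟨f, hf⟩ := hk i (s * (n - i)) (h4.trans (Nat.le_mul_of_pos_right _ h5))
      exact ⟨f, fun _ => hf⟩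
    · exact ⟨0, fun h => absurd h hi⟩
  choose f hf using h3
  set F : Polynomial (PowerSeries κ) := X ^ n + ∑ i ∈ Finset.range n, Polynomial.C (f i) * X ^ i with hF
  have hlow : (∑ i ∈ Finset.range n, Polynomial.C (f i) * X ^ i : Polynomial (PowerSeries κ)).degree < n := by
    refine (degree_sum_le _ _).trans_lt ((Finset.sup_lt_iff (WithBot.bot_lt_coe n)).2 fun i hi => ?_)
    exact (degree_C_mul_X_pow_le _ _).trans_lt (WithBot.coe_lt_coe.2 (Finset.mem_range.1 hi))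
  have hFm : F.Monic := monic_X_pow_add hlow
  have hFn : F.natDegree = n := by
    rw [hF]
    have h4 : (X ^ n + ∑ i ∈ Finset.range n, Polynomial.C (f i) * X ^ i : Polynomial (PowerSeries κ)).degree
        = n := by
      rw [degree_add_eq_left_of_degree_lt, degree_X_pow]
      rwa [degree_X_pow]
    exact natDegree_eq_of_degree_eq_some h4
  obtain ⟨M, hM, γ, hγ⟩ := puiseux F hFm
  have hM0 : 0 < M := Nat.pos_of_ne_zero hM
  have hcard : Multiset.card γ = n := by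
    have h5 : (F.map (xp M hM)).natDegree = n := by rw [hFm.natDegree_map, hFn]
    rw [hγ, natDegree_multiset_prod_X_sub_C_eq_card] at h5
    exact h5
  obtain ⟨g, hg⟩ : ∃ g, g ∈ γ := Multiset.card_pos_iff_exists_mem.1 (by omega)
  have hroot : (F.map (xp M hM)).eval g = 0 := by
    rw [hγ, eval_multiset_prod]
    refine Multiset.prod_eq_zero ?_
    rw [Multiset.mem_map]
    exact ⟨X - Polynomial.C g, Multiset.mem_map_of_mem _ hg, by simp⟩
  -- the root
  set ψ : PowerSeries κ →+* HahnSeries ℚ κ :=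
    (ph (Nat.mul_pos hN hM0)).comp (ofPowerSeries ℤ κ) with hψ
  have hψf : ∀ h : PowerSeries κ, ψ (xp M hM h) = ph hN (ofPowerSeries ℤ κ h) := fun h =>
    ph_expand hN hM0 h
  set z : HahnSeries ℚ κ := ψ g with hz
  have h6 : z ^ n + ∑ i ∈ Finset.range n, ph hN (ofPowerSeries ℤ κ (f i)) * z ^ i = 0 := by
    have h7 := congrArg ψ hroot
    rw [hF] at h7
    simp only [Polynomial.map_add, Polynomial.map_pow, map_X, Polynomial.map_sum,
      Polynomial.map_mul, Polynomial.map_C, eval_add, eval_pow, eval_X, eval_finsetSum, eval_mul,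
      eval_C,
      map_add, map_pow, map_sum, map_mul, map_zero, hψf] at h7
    exact h7
  have hzP : z ∈ Pus κ := ⟨N * M, Nat.mul_pos hN hM0, ⟨_, rfl⟩⟩
  set t : HahnSeries ℚ κ := single (-((s : ℤ) : ℚ) / N) 1 with ht
  have htP : t ∈ Pus κ := by
    refine ⟨N, hN, ⟨single (-(s : ℤ)) 1, ?_⟩⟩
    have h12 : ((-(s : ℤ) : ℤ) : ℚ) / N = -((s : ℤ) : ℚ) / N := by push_cast; ring
    rw [ph_single, h12]
  have ht1 : ∀ j : ℕ, t ^ j = single (-((s * j : ℕ) : ℚ) / N) 1 := by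
    intro j
    have h12 : j • (-((s : ℤ) : ℚ) / N) = -((s * j : ℕ) : ℚ) / N := by
      rw [nsmul_eq_mul]
      push_cast
      ring
    rw [ht, single_pow, one_pow, h12]
  set y : Pus κ := ⟨t * z, mul_mem htP hzP⟩ with hy
  refine ⟨y, ?_⟩
  apply Subtype.ext
  rw [eval_eq_sum_range, ← hn, Finset.sum_range_succ]
  have hpn : p.coeff n = 1 := hp
  rw [hpn, one_mul]
  have h8 : ((∑ i ∈ Finset.range n, p.coeff i * y ^ i + y ^ n : Pus κ) : HahnSeries ℚ κ) =
      ∑ i ∈ Finset.range n, ((p.coeff i : Pus κ) : HahnSeries ℚ κ) * (t * z) ^ i + (t * z) ^ n := by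
    push_cast
    rfl
  rw [h8]
  have h9 : t ^ n * (z ^ n + ∑ i ∈ Finset.range n, ph hN (ofPowerSeries ℤ κ (f i)) * z ^ i) = 0 := by
    rw [h6, mul_zero]
  rw [mul_add, Finset.mul_sum] at h9
  have h10 : ∀ i ∈ Finset.range n, t ^ n * (ph hN (ofPowerSeries ℤ κ (f i)) * z ^ i) =
      ((p.coeff i : Pus κ) : HahnSeries ℚ κ) * (t * z) ^ i := by
    intro i hi
    have hi' := Finset.mem_range.1 hi
    rw [hf i hi', map_mul, ph_single, hc i hi'.le]
    have h11 : t ^ n * single ((((s * (n - i) : ℕ) : ℤ) : ℚ) / N) 1 = t ^ i := by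
      have h13 : -((s * n : ℕ) : ℚ) / N + (((s * (n - i) : ℕ) : ℤ) : ℚ) / N =
          -((s * i : ℕ) : ℚ) / N := by
        push_cast [Nat.cast_sub hi'.le]
        ring
      rw [ht1, ht1, single_mul_single, mul_one, h13]
    calc t ^ n * (single ((((s * (n - i) : ℕ) : ℤ) : ℚ) / N) 1 *
          ((p.coeff i : Pus κ) : HahnSeries ℚ κ) * z ^ i) =
        (t ^ n * single ((((s * (n - i) : ℕ) : ℤ) : ℚ) / N) 1) *
          (((p.coeff i : Pus κ) : HahnSeries ℚ κ) * z ^ i) := by ring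
      _ = _ := by rw [h11]; ring
  rw [Finset.sum_congr rfl h10] at h9
  rw [mul_pow, add_comm]
  exact h9

end emb

section auto

variable {κ : Type u} [Field κ]

/-- A twisted coefficientwise map. -/
noncomputable def tmap (φ : ℚ → κ →+ κ) (h1 : φ 0 1 = 1)
    (hmul : ∀ a b u v, φ (a + b) (u * v) = φ a u * φ b v)
    (hinj : ∀ a u, φ a u = 0 → u = 0) : HahnSeries ℚ κ →+* HahnSeries ℚ κ where
  toFun x :=
    { coeff := fun a => φ a (x.coeff a)
      isPWO_support' := x.isPWO_support.mono fun a ha => by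
        rw [Function.mem_support] at ha
        rw [mem_support]
        intro h
        apply ha
        rw [h, map_zero] }
  map_one' := by
    ext a
    by_cases ha : a = 0
    · subst ha
      simp [h1]
    · simp [HahnSeries.coeff_one, ha]
  map_zero' := by
    ext a
    simp
  map_add' x y := by
    ext a
    simp
  map_mul' x y := by
    ext a
    show φ a ((x * y).coeff a) = _
    rw [HahnSeries.coeff_mul, HahnSeries.coeff_mul, map_sum]
    have hsupp : ∀ (w : HahnSeries ℚ κ) (b : ℚ), φ b (w.coeff b) ≠ 0 ↔ w.coeff b ≠ 0 := by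
      intro w b
      refine not_congr ⟨fun h => hinj _ _ h, fun h => by rw [h, map_zero]⟩
    refine Finset.sum_congr ?_ ?_
    · ext ij
      simp only [Finset.mem_antidiagonal, mem_support, hsupp]
    · rintro ⟨i, j⟩ hij
      rw [Finset.mem_antidiagonal] at hij
      rw [← hij.2.2]
      exact hmul _ _ _ _

theorem tmap_coeff (φ : ℚ → κ →+ κ) (h1 : φ 0 1 = 1)
    (hmul : ∀ a b u v, φ (a + b) (u * v) = φ a u * φ b v)
    (hinj : ∀ a u, φ a u = 0 → u = 0) (x : HahnSeries ℚ κ) (a : ℚ) :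
    (tmap φ h1 hmul hinj x).coeff a = φ a (x.coeff a) := rfl

/-- A twisted coefficientwise automorphism. -/
theorem exists_tequiv (φ ψ : ℚ → κ →+ κ) (h1 : φ 0 1 = 1)
    (hmul : ∀ a b u v, φ (a + b) (u * v) = φ a u * φ b v)
    (h1' : ψ 0 1 = 1) (hmul' : ∀ a b u v, ψ (a + b) (u * v) = ψ a u * ψ b v)
    (hφψ : ∀ a u, φ a (ψ a u) = u) (hψφ : ∀ a u, ψ a (φ a u) = u) :
    ∃ R : HahnSeries ℚ κ ≃+* HahnSeries ℚ κ, ∀ x a, (R x).coeff a = φ a (x.coeff a) := by
  have hinj : ∀ a u, φ a u = 0 → u = 0 := fun a u h => by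
    rw [← hψφ a u, h, map_zero]
  have hinj' : ∀ a u, ψ a u = 0 → u = 0 := fun a u h => by
    rw [← hφψ a u, h, map_zero]
  refine ⟨RingEquiv.ofRingHom (tmap φ h1 hmul hinj) (tmap ψ h1' hmul' hinj') ?_ ?_,
    fun x a => rfl⟩
  · ext x a
    exact hφψ a _
  · ext x a
    exact hψφ a _

end auto

end Pool.Agent.Helper97.PLN.Pui

namespace Pool.Agent.PC

open Pool.Agent.Helper97.PLN.Pui

/-- Puiseux series: Hahn series with support in `(1 / N) ℤ` for some `N`. -/
theorem exists_puis (κ : Type u) [Field κ] :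
    ∃ P : Subfield (HahnSeries ℚ κ),
      (∀ x : HahnSeries ℚ κ, x ∈ P ↔ ∃ N : ℕ, 0 < N ∧ ∀ a : ℚ, x.coeff a ≠ 0 →
        ∃ b : ℤ, a * N = b) ∧
      (IsAlgClosed κ → CharZero κ → IsAlgClosed P) := by
  refine ⟨Pus κ, fun x => ?_, fun _ _ => isAlgClosed_Pus⟩
  rw [mem_Pus]
  constructor
  · rintro ⟨N, hN, h⟩
    exact ⟨N, hN, (mem_range_ph hN x).1 h⟩
  · rintro ⟨N, hN, h⟩
    exact ⟨N, hN, (mem_range_ph hN x).2 h⟩

/-- coefficientwise automorphisms -/
theorem exists_hmap {κ : Type u} [Field κ] (ρ : κ ≃+* κ) :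
    ∃ R : HahnSeries ℚ κ ≃+* HahnSeries ℚ κ, ∀ x a, (R x).coeff a = ρ (x.coeff a) :=
  exists_tequiv (fun _ => (ρ : κ →+* κ).toAddMonoidHom) (fun _ => (ρ.symm : κ →+* κ).toAddMonoidHom)
    (by simp) (by simp) (by simp) (by simp) (by simp) (by simp)

/-- twists -/
theorem exists_twist {κ : Type u} [Field κ] (χ : ℚ → κ) (h0 : χ 0 = 1)
    (hadd : ∀ a b, χ (a + b) = χ a * χ b) :
    ∃ R : HahnSeries ℚ κ ≃+* HahnSeries ℚ κ, ∀ x a, (R x).coeff a = χ a * x.coeff a := by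
  have hinv : ∀ a, χ a * χ (-a) = 1 := fun a => by rw [← hadd, add_neg_cancel, h0]
  refine exists_tequiv (fun a => AddMonoidHom.mulLeft (χ a)) (fun a => AddMonoidHom.mulLeft (χ (-a)))
    ?_ ?_ ?_ ?_ ?_ ?_
  · simp [h0]
  · intro a b u v
    simp only [AddMonoidHom.coe_mulLeft, hadd]
    ring
  · simp [h0]
  · intro a b u v
    simp only [AddMonoidHom.coe_mulLeft, neg_add, hadd]
    ring
  · intro a u
    simp only [AddMonoidHom.coe_mulLeft]
    rw [← mul_assoc, hinv, one_mul]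
  · intro a u
    simp only [AddMonoidHom.coe_mulLeft]
    rw [← mul_assoc, mul_comm (χ (-a)), hinv, one_mul]

/-- a character of `ℚ / ℤ` which does not kill `1 / p` -/
theorem exists_chi {κ : Type u} [Field κ] [IsAlgClosed κ] [CharZero κ] {p : ℕ}
    (hp : p.Prime) : ∃ χ : ℚ → κ, χ 0 = 1 ∧ (∀ a b, χ (a + b) = χ a * χ b) ∧ χ 1 = 1 ∧
      χ (1 / p) ≠ 1 ∧ ∀ a, ∃ N : ℕ, 0 < N ∧ χ a ^ N = 1 := by
  set e : ℚ → ℂ := fun a => Complex.exp (2 * Real.pi * Complex.I * (a : ℂ)) with he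
  have h0 : e 0 = 1 := by simp [he]
  have hadd : ∀ a b, e (a + b) = e a * e b := by
    intro a b
    simp only [he]
    rw [← Complex.exp_add]
    congr 1
    push_cast
    ring
  have h1 : e 1 = 1 := by
    simp only [he]
    rw [Rat.cast_one, mul_one]
    exact Complex.exp_two_pi_mul_I
  have hpow : ∀ a (n : ℕ), e a ^ n = e (n * a) := by
    intro a n
    simp only [he]
    rw [← Complex.exp_nat_mul]
    congr 1
    push_cast
    ring
  have htor : ∀ a, ∃ N : ℕ, 0 < N ∧ e a ^ N = 1 := by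
    intro a
    refine ⟨a.den, a.den_pos, ?_⟩
    rw [hpow]
    have h2 : ((a.den : ℕ) : ℚ) * a = (a.num : ℚ) := by
      rw [mul_comm]
      exact Rat.mul_den_eq_num a
    rw [h2]
    simp only [he]
    rw [Complex.exp_eq_one_iff]
    exact ⟨a.num, by push_cast; ring⟩
  have hp1 : e (1 / p) ≠ 1 := by
    intro h
    simp only [he] at h
    rw [Complex.exp_eq_one_iff] at h
    obtain ⟨n, hn⟩ := h
    have h2 : (2 * Real.pi * Complex.I : ℂ) ≠ 0 := Complex.two_pi_I_ne_zero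
    have h3 : (((1 / p : ℚ) : ℂ)) = n := by
      apply mul_left_cancel₀ h2
      rw [hn]
      ring
    have h4 : ((1 / p : ℚ)) = n := by exact_mod_cast h3
    have hp0 : (p : ℚ) ≠ 0 := by exact_mod_cast hp.ne_zero
    have h5 : (1 : ℚ) = n * p := by
      rw [← h4]
      field_simp
    have h6 : (1 : ℤ) = n * p := by exact_mod_cast h5
    have h7 : (p : ℤ) ∣ 1 := ⟨n, by rw [h6]; ring⟩
    have h8 : p ∣ 1 := by exact_mod_cast h7
    exact hp.one_lt.ne' (Nat.dvd_one.1 h8)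
  have halg : ∀ a, IsAlgebraic ℚ (e a) := by
    intro a
    obtain ⟨N, hN, h⟩ := htor a
    refine ⟨Polynomial.X ^ N - 1, ?_, ?_⟩
    · exact Polynomial.X_pow_sub_C_ne_zero hN 1
    · simp [h]
  let A := algebraicClosure ℚ ℂ
  let ea : ℚ → A := fun a => ⟨e a, mem_algebraicClosure_iff.2 (halg a)⟩
  have hAalg : Algebra.IsAlgebraic ℚ A := algebraicClosure.isAlgebraic ℚ ℂ
  let σ : A →ₐ[ℚ] κ := IsAlgClosed.lift
  have hinj : Function.Injective σ := σ.toRingHom.injective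
  have hea : ∀ a, (ea a : ℂ) = e a := fun _ => rfl
  refine ⟨fun a => σ (ea a), ?_, ?_, ?_, ?_, ?_⟩
  · have h2 : ea 0 = 1 := Subtype.ext h0
    show σ (ea 0) = 1
    rw [h2, map_one]
  · intro a b
    have h2 : ea (a + b) = ea a * ea b := Subtype.ext (hadd a b)
    show σ (ea (a + b)) = _
    rw [h2, map_mul]
  · have h2 : ea 1 = 1 := Subtype.ext h1
    show σ (ea 1) = 1
    rw [h2, map_one]
  · intro h
    apply hp1
    have h2 : σ (ea (1 / p)) = σ 1 := by rw [map_one]; exact h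
    have h3 := congrArg (fun z : A => (z : ℂ)) (hinj h2)
    exact h3
  · intro a
    obtain ⟨N, hN, h⟩ := htor a
    refine ⟨N, hN, ?_⟩
    have h2 : ea a ^ N = 1 := Subtype.ext h
    show σ (ea a) ^ N = 1
    rw [← map_pow, h2, map_one]

end Pool.Agent.PC
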