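import Mathlib

/-!
# Coefficientwise homomorphisms of Hahn series, algebraic elements over an algebraically closed field
-/

set_option autoImplicit false

universe u v

namespace Pool.Agent.PC

/-- coefficientwise homomorphisms -/
theorem exists_hmapHom {κ : Type u} {κ' : Type v} [Field κ] [Field κ'] (ρ : κ →+* κ') :
    ∃ R : HahnSeries ℚ κ →+* HahnSeries ℚ κ', ∀ x a, (R x).coeff a = ρ (x.coeff a) := by
  refine ⟨{ toFun := fun x => x.map ρ
            map_one' := ?_
            map_zero' := ?_
            map_add' := ?_
            map_mul' := ?_ }, fun x a => rfl⟩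
  · ext a
    by_cases ha : a = 0
    · subst ha
      simp
    · simp [HahnSeries.coeff_one, ha]
  · intro x y
    exact HahnSeries.map_mul (ρ : κ →ₙ+* κ')
  · ext a
    simp
  · intro x y
    ext a
    simp

/-- An element algebraic over the image of an algebraically closed field lies in the image. -/
theorem mem_range_of_isAlgebraic {K : Type u} {L : Type v} [Field K] [IsAlgClosed K] [Field L]
    (φ : K →+* L) {F : Subfield L} (hF : F ≤ φ.fieldRange) {y : L} (hy : IsAlgebraic F y) :
    y ∈ φ.fieldRange := by
  let : Algebra K L := φ.toAlgebra
  have h1 : IsAlgebraic K y := by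
    obtain ⟨p, hp, hpy⟩ := hy
    have h2 : ∀ c : F, ∃ b : K, φ b = c := fun c => hF c.2
    choose g hg using h2
    refine ⟨p.sum fun i c => Polynomial.monomial i (g c), ?_, ?_⟩
    · intro h
      apply hp
      ext i
      have h3 := congrArg (fun q => φ (Polynomial.coeff q i)) h
      simp only [Polynomial.sum_def, Polynomial.finsetSum_coeff, Polynomial.coeff_monomial,
        Polynomial.coeff_zero, map_zero] at h3
      rw [Finset.sum_ite_eq' p.support i] at h3
      by_cases hi : i ∈ p.support
      · rw [if_pos hi, hg] at h3
        rw [h3]
        simp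
      · rw [Polynomial.notMem_support_iff.1 hi]
        simp
    · rw [Polynomial.sum_def, map_sum]
      rw [Polynomial.aeval_eq_sum_range] at hpy
      have h4 : ∀ i, Polynomial.aeval y (Polynomial.monomial i (g (p.coeff i))) =
          p.coeff i • y ^ i := by
        intro i
        rw [Polynomial.aeval_monomial]
        show φ (g (p.coeff i)) * y ^ i = _
        rw [hg]
        rfl
      simp_rw [h4]
      rw [← hpy]
      refine Finset.sum_subset ?_ ?_
      · intro i hi
        rw [Finset.mem_range, Nat.lt_succ_iff]
        exact Polynomial.le_natDegree_of_mem_supp i hi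
      · intro i _ hi
        rw [Polynomial.notMem_support_iff.1 hi, zero_smul]
  have h5 : (minpoly K y).degree = 1 :=
    IsAlgClosed.degree_eq_one_of_irreducible K (minpoly.irreducible h1.isIntegral)
  have h6 := minpoly.aeval K y
  rw [Polynomial.eq_X_add_C_of_degree_eq_one h5, (minpoly.monic h1.isIntegral).leadingCoeff,
    map_one, one_mul, map_add, Polynomial.aeval_X, Polynomial.aeval_C] at h6
  refine ⟨-(minpoly K y).coeff 0, ?_⟩
  rw [map_neg]
  exact (eq_neg_of_add_eq_zero_left h6).symm

end Pool.Agent.PC
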